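import Pool.Agent.P8H60.JG.Asy
import Pool.Agent.P8H82.FF.Stm

/-! # Project FF, package ASYX -/

set_option autoImplicit false

namespace Pool.Agent.P8H71.FF

open NumberField Ideal IsDedekindDomain Filter Topology MeasureTheory
open Pool.Agent.P8H82.JG Pool.Agent.P8H60.JG Pool.Agent.P8H82.FF

/-- package ASYX -/
theorem asyx (hbox : S_BOX) (hasz : S_ASZX) (htl : S_TL) (hden : S_DENX) : S_ASYX := by
  classical
  intro K _ _ σ τ hG T w D hw hD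
  have hprod := (hden K T w hw).1
  obtain ⟨R₀, hR₀⟩ := hD.1.exists_norm_le
  obtain ⟨R, hR⟩ : ∃ R : ℝ, R = max R₀ 1 := ⟨_, rfl⟩
  have hR1 : 1 ≤ R := by rw [hR]; exact le_max_right _ _
  have hDR : ∀ p ∈ D, ‖p‖ ≤ R := fun p hp => (hR₀ p hp).trans (by rw [hR]; exact le_max_left _ _)
  have hin : ∀ l : ℝ, 1 ≤ l → ∀ q : 𝓞 K × 𝓞 K, emb σ τ l q.1 q.2 ∈ D → q ∈ Bq σ τ (R * l) := by
    intro l hl q hq
    have hl0 : 0 < l := by linarith
    have h1 := hDR _ hq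
    have h2 : ∀ x : ℝ, |x / l| ≤ R → |x| ≤ R * l := by
      intro x hx
      rwa [abs_div, abs_of_pos hl0, div_le_iff₀ hl0] at hx
    unfold emb at h1
    rw [Prod.norm_def, max_le_iff, Prod.norm_def, max_le_iff, Prod.norm_def, max_le_iff] at h1
    obtain ⟨a1, a2, a3, a4⟩ := h1
    exact ⟨h2 _ a1, h2 _ a2, h2 _ a3, h2 _ a4⟩
  obtain ⟨C, hC, htail⟩ := htl K σ τ hG R hR1
  set G : ℝ := (volume D).toReal / 5 * dn T w with hGd
  rw [Metric.tendsto_atTop]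
  intro ε hε
  -- the choice of Z
  have hg : Tendsto (fun Z : Finset (HeightOneSpectrum (𝓞 K)) =>
      (volume D).toReal / 5 * ∏ P ∈ Z, dX T P (ord P w)) atTop (𝓝 G) := by
    have h1 : Tendsto (fun Z : Finset (HeightOneSpectrum (𝓞 K)) => ∏ P ∈ Z, dX T P (ord P w)) atTop
        (𝓝 (dn T w)) := by
      simpa [HasProd, SummationFilter.unconditional_filter] using hprod
    exact h1.const_mul _
  have ht : Tendsto (fun Z : Finset (HeightOneSpectrum (𝓞 K)) =>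
      C * ∑' P : {P : HeightOneSpectrum (𝓞 K) // P ∉ Z}, 1 / nP P.1 ^ 2) atTop (𝓝 (C * 0)) :=
    (tendsto_tsum_compl_atTop_zero (fun P : HeightOneSpectrum (𝓞 K) => 1 / nP P ^ 2)).const_mul _
  rw [mul_zero] at ht
  obtain ⟨Z, ⟨hZ1, hZ2⟩, hZ3⟩ := (((hg.eventually (Metric.ball_mem_nhds G (by positivity : 0 < ε / 4))).and
    (ht.eventually_lt_const (by positivity : 0 < ε / 4))).and
    (eventually_ge_atTop ((supp_finite hw).toFinset ∪ T))).exists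
  rw [Real.dist_eq, abs_lt] at hZ1
  have hF := hasz K σ τ hG T (fun P => ord P w) Z D hD
  have hsmall : Tendsto (fun l : ℝ => 3 * (16 * R ^ 2 / l ^ 2 + 1 / l ^ 4)) atTop (𝓝 (3 * (0 + 0))) := by
    refine Tendsto.const_mul _ (Tendsto.add ?_ ?_)
    · exact tendsto_const_nhds.div_atTop (tendsto_pow_atTop (by norm_num))
    · exact tendsto_const_nhds.div_atTop (tendsto_pow_atTop (by norm_num))
  rw [add_zero, mul_zero] at hsmall
  have hev := ((hF.eventually (Metric.ball_mem_nhds _ (by positivity : 0 < ε / 4))).and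
    (hsmall.eventually_lt_const (by positivity : 0 < ε / 4))).and (eventually_ge_atTop (1 : ℝ))
  obtain ⟨l₀, hl₀⟩ := hev.exists_forall_of_atTop
  refine ⟨l₀, fun l hl => ?_⟩
  obtain ⟨⟨h1, h2⟩, hl1⟩ := hl₀ l hl
  rw [Real.dist_eq, abs_lt] at h1
  have hl0 : 0 < l := by linarith
  have hB : 0 < R * l := by positivity
  set f : Set (𝓞 K × 𝓞 K) := {q | q.1 * q.2 * (q.1 + q.2) ≠ 0 ∧
    (∀ P, CX T P (ord P w) q.1 q.2) ∧ emb σ τ l q.1 q.2 ∈ D} with hf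
  set F : Set (𝓞 K × 𝓞 K) := {q | (∀ P ∈ Z, CX T P (ord P w) q.1 q.2) ∧ emb σ τ l q.1 q.2 ∈ D} with hFd
  have hFfin : F.Finite := (Bq_fin hbox hG hB).subset fun q hq => hin l hl1 q hq.2
  have hfF : f ⊆ F := fun q hq => ⟨fun P _ => hq.2.1 P, hq.2.2⟩
  have hup : ((f.ncard : ℕ) : ℝ) ≤ (F.ncard : ℝ) := by exact_mod_cast Set.ncard_le_ncard hfF hFfin
  obtain ⟨hbf, hbc⟩ := htail Z l hl1
  set Bd : Set (𝓞 K × 𝓞 K) := {q | q.1 * q.2 * (q.1 + q.2) ≠ 0 ∧ |σ q.1| ≤ R * l ∧ |τ q.1| ≤ R * l ∧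
    |σ q.2| ≤ R * l ∧ |τ q.2| ≤ R * l ∧ ∃ P, P ∉ Z ∧ ¬ Cnd P 0 q.1 q.2} with hBd
  have hdeg := deg_count hbox hG hB
  set Dg : Set (𝓞 K × 𝓞 K) := {q | q.1 * q.2 * (q.1 + q.2) = 0 ∧ q ∈ Bq σ τ (R * l)} with hDg
  have hDgf : Dg.Finite := (Bq_fin hbox hG hB).subset fun q hq => hq.2
  have hsub : F ⊆ (f ∪ Bd) ∪ Dg := by
    intro q hq
    have hq1 := hin l hl1 q hq.2
    by_cases h0 : q.1 * q.2 * (q.1 + q.2) = 0
    · exact Or.inr ⟨h0, hq1⟩
    · left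
      by_cases h3 : ∀ P, CX T P (ord P w) q.1 q.2
      · exact Or.inl ⟨h0, h3, hq.2⟩
      · right
        push Not at h3
        obtain ⟨P, hP⟩ := h3
        have hPZ : P ∉ Z := fun h => hP (hq.1 P h)
        have h4 : ord P w = 0 := by
          rw [ord_eq_zero_iff P hw]
          intro h
          apply hPZ
          apply hZ3
          rw [Finset.mem_union, Set.Finite.mem_toFinset]
          exact Or.inl h
        have hPT : P ∉ T := fun h => hPZ (hZ3 (Finset.mem_union_right _ h))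
        rw [h4] at hP
        exact ⟨h0, hq1.1, hq1.2.1, hq1.2.2.1, hq1.2.2.2, P, hPZ,
          fun h => hP ⟨fun h' => absurd h' hPT, fun _ => h⟩⟩
  have hffin : f.Finite := hFfin.subset hfF
  have h3 := (Set.ncard_le_ncard hsub ((hffin.union hbf).union hDgf)).trans
    ((Set.ncard_union_le _ _).trans (Nat.add_le_add_right (Set.ncard_union_le _ _) _))
  have h4 : ((F.ncard : ℕ) : ℝ) ≤ (f.ncard : ℝ) + (Bd.ncard : ℝ) + (Dg.ncard : ℝ) := by exact_mod_cast h3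
  have hl4 : 0 < l ^ 4 := by positivity
  have h5 : ((f.ncard : ℕ) : ℝ) / l ^ 4 ≤ (F.ncard : ℝ) / l ^ 4 := div_le_div_of_nonneg_right hup hl4.le
  have h6 : (F.ncard : ℝ) / l ^ 4 ≤ (f.ncard : ℝ) / l ^ 4 + ε / 4 + ε / 4 := by
    have a1 : (Bd.ncard : ℝ) / l ^ 4 ≤ ε / 4 := by
      rw [div_le_iff₀ hl4]
      refine hbc.trans ?_
      have : C * l ^ 4 * ∑' P : {P : HeightOneSpectrum (𝓞 K) // P ∉ Z}, 1 / nP P.1 ^ 2 =
          (C * ∑' P : {P : HeightOneSpectrum (𝓞 K) // P ∉ Z}, 1 / nP P.1 ^ 2) * l ^ 4 := by ring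
      rw [this]
      exact mul_le_mul_of_nonneg_right hZ2.le hl4.le
    have a2 : (Dg.ncard : ℝ) / l ^ 4 ≤ ε / 4 := by
      refine le_trans ?_ h2.le
      rw [div_le_iff₀ hl4]
      refine hdeg.trans (le_of_eq ?_)
      field_simp
    calc (F.ncard : ℝ) / l ^ 4 ≤ ((f.ncard : ℝ) + (Bd.ncard : ℝ) + (Dg.ncard : ℝ)) / l ^ 4 :=
          div_le_div_of_nonneg_right h4 hl4.le
      _ = (f.ncard : ℝ) / l ^ 4 + (Bd.ncard : ℝ) / l ^ 4 + (Dg.ncard : ℝ) / l ^ 4 := by ring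
      _ ≤ _ := by linarith
  rw [Real.dist_eq, abs_lt]
  constructor <;> linarith [hZ1.1, hZ1.2, h1.1, h1.2]

end Pool.Agent.P8H71.FF
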